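import Pool.Agent.helper29.JZ.Spec

/-!
# jz:HZL (MP_3221a1_ag): the horizontal line of a row with many points
-/

set_option autoImplicit false

open Finset Polynomial
open Pool.Agent.helper29.JZ

namespace Pool.Agent.helper34.JZ

theorem jz_HZL : HZL_stmt := by
  classical
  intro h h' x y M a hy h2 he
  have hsup : mA M = (univ : Finset (Fin h')).sup fun m : Fin h' =>
      ((PA M).filter fun z => z.2 = m).card := rfl
  have hle : ∀ m : Fin h', ((PA M).filter fun z => z.2 = m).card ≤ mA M := by
    intro m
    rw [hsup]
    exact Finset.le_sup (f := fun m : Fin h' => ((PA M).filter fun z => z.2 = m).card) (mem_univ m)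
  rcases Nat.eq_zero_or_pos (mA M) with h0 | hpos
  · have hPA : PA M = ∅ := by
      rw [Finset.eq_empty_iff_forall_notMem]
      intro z hz
      have h1 := hle z.2
      have h3 : z ∈ (PA M).filter fun w => w.2 = z.2 := Finset.mem_filter.2 ⟨hz, rfl⟩
      have h4 : 0 < ((PA M).filter fun w => w.2 = z.2).card := Finset.card_pos.2 ⟨z, h3⟩
      omega
    have hc : (PA M).card = 0 := by rw [hPA]; rfl
    have hHC : (HC x y M 1 0).card = 0 := by
      have h5 : (HC x y M 1 0).card ≤ (PA M).card := by
        unfold HC
        exact Finset.card_le_card (Finset.filter_subset _ _)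
      omega
    refine ⟨1, 0, isCoprime_one_left, ?_, h2⟩
    rw [hHC, hc]
    simp
    omega
  · have hne : (univ : Finset (Fin h')).Nonempty := by
      by_contra hn
      rw [Finset.not_nonempty_iff_eq_empty] at hn
      rw [hsup, hn] at hpos
      simp at hpos
    obtain ⟨m, -, hm⟩ := Finset.exists_mem_eq_sup (univ : Finset (Fin h')) hne
      (fun m : Fin h' => ((PA M).filter fun z => z.2 = m).card)
    have hm' : mA M = ((PA M).filter fun z => z.2 = m).card := hm
    have hHC : HC x y M 1 (C (y m)) = (PA M).filter fun z => z.2 = m := by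
      ext z
      unfold HC
      rw [Finset.mem_filter, Finset.mem_filter]
      simp only [eval_one, one_mul, eval_C]
      constructor
      · rintro ⟨h1, h3⟩
        exact ⟨h1, hy h3⟩
      · rintro ⟨h1, h3⟩
        exact ⟨h1, by rw [h3]⟩
    refine ⟨1, C (y m), isCoprime_one_left, ?_, h2⟩
    rw [hHC, ← hm']
    simp
    omega

end Pool.Agent.helper34.JZ
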